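import Pool.Agent.H16.ZW.Targets

open Filter Topology MvPolynomial

namespace Pool.Agent.H95.ZW

open Pool.Agent.H16.ZW

theorem adj_aux (N M : ℕ) (A : Matrix (Fin N) (Fin N) ℤ) (Q : ℤ)
    (hQ : (∑ i, ∑ j, |A i j|) + 2 * M + 1 ≤ Q) (u e : Fin N → ℤ) (d : ℤ)
    (he : ∀ i, |e i| ≤ M)
    (h : Matrix.vecMul u (Q • (1 : Matrix (Fin N) (Fin N) ℤ) - A) = d • e) (j : Fin N) :
    (2 * M + 1) * |u j| ≤ M * |d| := by
  obtain ⟨k, -, hk⟩ := Finset.exists_max_image Finset.univ (fun i => |u i|) ⟨j, Finset.mem_univ j⟩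
  have h1 : Q * u k = d * e k + ∑ i, u i * A i k := by
    have h2 := congrFun h k
    rw [Matrix.vecMul_sub, Matrix.vecMul_smul, Matrix.vecMul_one] at h2
    simp only [Pi.sub_apply, Pi.smul_apply, smul_eq_mul, Matrix.vecMul, dotProduct] at h2
    linarith
  have h3 : |∑ i, u i * A i k| ≤ |u k| * ∑ i, ∑ j, |A i j| := by
    refine (Finset.abs_sum_le_sum_abs _ _).trans ?_
    rw [Finset.mul_sum]
    refine Finset.sum_le_sum fun i _ => ?_
    rw [abs_mul]
    refine mul_le_mul (hk i (Finset.mem_univ i)) ?_ (abs_nonneg _) (abs_nonneg _)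
    exact Finset.single_le_sum (f := fun j => |A i j|) (fun j _ => abs_nonneg _)
      (Finset.mem_univ k)
  have ha : 0 ≤ ∑ i, ∑ j, |A i j| :=
    Finset.sum_nonneg fun i _ => Finset.sum_nonneg fun j _ => abs_nonneg _
  have hM : (0 : ℤ) ≤ M := Int.natCast_nonneg M
  have h4 : Q * |u k| ≤ |d| * M + |u k| * ∑ i, ∑ j, |A i j| := by
    have h5 : |Q * u k| = Q * |u k| := by
      rw [abs_mul, abs_of_nonneg (by linarith)]
    rw [← h5, h1]
    refine (abs_add_le _ _).trans (add_le_add ?_ h3)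
    rw [abs_mul]
    exact mul_le_mul_of_nonneg_left (he k) (abs_nonneg _)
  have h6 : (2 * M + 1) * |u k| ≤ M * |d| := by
    have h7 : ((∑ i, ∑ j, |A i j|) + 2 * M + 1) * |u k| ≤ Q * |u k| :=
      mul_le_mul_of_nonneg_right hQ (abs_nonneg _)
    nlinarith
  refine le_trans ?_ h6
  exact mul_le_mul_of_nonneg_left (hk j (Finset.mem_univ j)) (by linarith)

theorem adj : T_ADJ := by
  intro N M A
  have ha : 0 ≤ ∑ i, ∑ j, |A i j| :=
    Finset.sum_nonneg fun i _ => Finset.sum_nonneg fun j _ => abs_nonneg _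
  refine ⟨(∑ i, ∑ j, |A i j|).toNat + 2 * M + 1, fun Q hQ => ?_⟩
  have hQ' : (∑ i, ∑ j, |A i j|) + 2 * M + 1 ≤ (Q : ℤ) := by
    have h1 : (((∑ i, ∑ j, |A i j|).toNat + 2 * M + 1 : ℕ) : ℤ) ≤ Q := by exact_mod_cast hQ
    rw [Nat.cast_add, Nat.cast_add, Nat.cast_mul, Int.toNat_of_nonneg ha] at h1
    simpa using h1
  have hM : (0 : ℤ) ≤ M := Int.natCast_nonneg M
  have hdet : ((Q : ℤ) • (1 : Matrix (Fin N) (Fin N) ℤ) - A).det ≠ 0 := by
    intro h0
    obtain ⟨u, hu, hu0⟩ := Matrix.exists_vecMul_eq_zero_iff.2 h0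
    apply hu
    funext j
    have h1 := adj_aux N M A Q hQ' u 0 0 (by intro i; simp) (by rw [hu0]; simp) j
    rw [abs_zero, mul_zero] at h1
    have h2 : |u j| ≤ 0 := by
      by_contra h3
      rw [not_le] at h3
      have : 0 < (2 * (M : ℤ) + 1) * |u j| := mul_pos (by linarith) h3
      linarith
    exact abs_nonpos_iff.1 h2
  refine ⟨hdet, fun e he j => ?_⟩
  have h1 := adj_aux N M A Q hQ'
    (Matrix.vecMul e (((Q : ℤ) • (1 : Matrix (Fin N) (Fin N) ℤ) - A).adjugate)) e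
    (((Q : ℤ) • (1 : Matrix (Fin N) (Fin N) ℤ) - A).det) he (by
      rw [Matrix.vecMul_vecMul, Matrix.adjugate_mul, Matrix.vecMul_smul, Matrix.vecMul_one]) j
  set t := |Matrix.vecMul e (((Q : ℤ) • (1 : Matrix (Fin N) (Fin N) ℤ) - A).adjugate) j|
    with ht
  set d := |((Q : ℤ) • (1 : Matrix (Fin N) (Fin N) ℤ) - A).det| with hd
  have hd0 : 0 < d := abs_pos.2 hdet
  have ht0 : 0 ≤ t := abs_nonneg _
  by_contra h2
  rw [not_lt] at h2
  nlinarith

end Pool.Agent.H95.ZW
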