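import Pool.Agent.H16.ZW.Targets

open Filter Topology MvPolynomial

namespace Pool.Agent.H95.ZW

open Pool.Agent.H16.ZW

section

variable {N : ℕ} (x : Fin N → Qb)

/-- the rational function `f` has the value `y` at the point `x` -/
def HV (f : FractionRing (MvPolynomial (Fin N) Qb)) (y : Qb) : Prop :=
  ∃ a b : MvPolynomial (Fin N) Qb, eval x b ≠ 0 ∧
    f = algebraMap (MvPolynomial (Fin N) Qb) (FractionRing (MvPolynomial (Fin N) Qb)) a /
      algebraMap (MvPolynomial (Fin N) Qb) (FractionRing (MvPolynomial (Fin N) Qb)) b ∧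
    y = eval x a / eval x b

variable {x}

theorem HV.am_ne {b : MvPolynomial (Fin N) Qb} (hb : eval x b ≠ 0) :
    algebraMap (MvPolynomial (Fin N) Qb) (FractionRing (MvPolynomial (Fin N) Qb)) b ≠ 0 := by
  intro h
  apply hb
  have h1 : b = 0 := by
    apply IsFractionRing.injective (MvPolynomial (Fin N) Qb)
      (FractionRing (MvPolynomial (Fin N) Qb))
    rw [h, map_zero]
  rw [h1, map_zero]

theorem HV.unique {f : FractionRing (MvPolynomial (Fin N) Qb)} {y z : Qb} (h : HV x f y)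
    (h' : HV x f z) : y = z := by
  obtain ⟨a, b, hb, hf, hy⟩ := h
  obtain ⟨a', b', hb', hf', hy'⟩ := h'
  rw [hf] at hf'
  rw [div_eq_div_iff (HV.am_ne hb) (HV.am_ne hb'), ← map_mul, ← map_mul] at hf'
  have h1 := IsFractionRing.injective (MvPolynomial (Fin N) Qb)
      (FractionRing (MvPolynomial (Fin N) Qb)) hf'
  have h2 := congrArg (eval x) h1
  rw [map_mul, map_mul] at h2
  rw [hy, hy', div_eq_div_iff hb hb', h2]

theorem HV.of (a : MvPolynomial (Fin N) Qb) :
    HV x (algebraMap (MvPolynomial (Fin N) Qb) (FractionRing (MvPolynomial (Fin N) Qb)) a)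
      (eval x a) :=
  ⟨a, 1, by simp, by simp, by simp⟩

theorem HV.one : HV x (1 : FractionRing (MvPolynomial (Fin N) Qb)) 1 :=
  ⟨1, 1, by simp, by simp, by simp⟩

theorem HV.mul {f g : FractionRing (MvPolynomial (Fin N) Qb)} {y z : Qb} (h : HV x f y)
    (h' : HV x g z) : HV x (f * g) (y * z) := by
  obtain ⟨a, b, hb, hf, hy⟩ := h
  obtain ⟨a', b', hb', hf', hy'⟩ := h'
  refine ⟨a * a', b * b', ?_, ?_, ?_⟩
  · rw [map_mul]
    exact mul_ne_zero hb hb'
  · rw [hf, hf', map_mul, map_mul, div_mul_div_comm]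
  · rw [hy, hy', map_mul, map_mul, div_mul_div_comm]

theorem HV.inv {f : FractionRing (MvPolynomial (Fin N) Qb)} {y : Qb} (h : HV x f y)
    (hy0 : y ≠ 0) : HV x f⁻¹ y⁻¹ := by
  obtain ⟨a, b, hb, hf, hy⟩ := h
  refine ⟨b, a, ?_, ?_, ?_⟩
  · intro h0
    apply hy0
    rw [hy, h0, zero_div]
  · rw [hf, inv_div]
  · rw [hy, inv_div]

theorem HV.div {f g : FractionRing (MvPolynomial (Fin N) Qb)} {y z : Qb} (h : HV x f y)
    (h' : HV x g z) (hz : z ≠ 0) : HV x (f / g) (y / z) := by
  rw [div_eq_mul_inv, div_eq_mul_inv]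
  exact h.mul (h'.inv hz)

theorem HV.pow {f : FractionRing (MvPolynomial (Fin N) Qb)} {y : Qb} (h : HV x f y) (n : ℕ) :
    HV x (f ^ n) (y ^ n) := by
  induction n with
  | zero =>
    rw [pow_zero, pow_zero]
    exact HV.one
  | succ n ih =>
    rw [pow_succ, pow_succ]
    exact ih.mul h

theorem HV.zpow {f : FractionRing (MvPolynomial (Fin N) Qb)} {y : Qb} (h : HV x f y)
    (hy : y ≠ 0) (n : ℤ) : HV x (f ^ n) (y ^ n) := by
  cases n with
  | ofNat n =>
    rw [Int.ofNat_eq_natCast, zpow_natCast, zpow_natCast]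
    exact h.pow n
  | negSucc n =>
    rw [zpow_negSucc, zpow_negSucc]
    exact (h.pow (n + 1)).inv (pow_ne_zero _ hy)

theorem HV.prod {ι : Type} (s : Finset ι) (f : ι → FractionRing (MvPolynomial (Fin N) Qb))
    (y : ι → Qb) (h : ∀ i, HV x (f i) (y i)) : HV x (∏ i ∈ s, f i) (∏ i ∈ s, y i) := by
  classical
  induction s using Finset.induction_on with
  | empty =>
    rw [Finset.prod_empty, Finset.prod_empty]
    exact HV.one
  | insert i s hi ih =>
    rw [Finset.prod_insert hi, Finset.prod_insert hi]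
    exact (h i).mul ih

end

theorem idn : T_IDN := by
  intro N U V P Q c A w _ _ _ h x hx hU hV hQ
  have h1 : HV x (algebraMap (MvPolynomial (Fin N) Qb)
      (FractionRing (MvPolynomial (Fin N) Qb)) P /
      algebraMap (MvPolynomial (Fin N) Qb) (FractionRing (MvPolynomial (Fin N) Qb)) Q)
      (eval x P / eval x Q) := (HV.of P).div (HV.of Q) hQ
  have h2 : HV x (algebraMap (MvPolynomial (Fin N) Qb)
      (FractionRing (MvPolynomial (Fin N) Qb)) P /
      algebraMap (MvPolynomial (Fin N) Qb) (FractionRing (MvPolynomial (Fin N) Qb)) Q)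
      (eval x (C c) * (∏ j, eval x (X j) ^ A j) * (eval x U / eval x V) ^ w) := by
    rw [h]
    refine ((HV.of (C c)).mul (HV.prod _ _ _ fun j => ?_)).mul ?_
    · refine (HV.of (X j)).zpow ?_ _
      rw [eval_X]
      exact hx j
    · exact ((HV.of U).div (HV.of V) hV).zpow (div_ne_zero hU hV) w
  have h3 := h1.unique h2
  rw [div_eq_iff hQ] at h3
  rw [h3]
  simp only [eval_C, eval_X, mon]
  ring

end Pool.Agent.H95.ZW
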