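import Pool.Agent.H16.ZW.Targets

open Filter Topology MvPolynomial

namespace Pool.Agent.H95.ZW

open Pool.Agent.H16.ZW

theorem ko (hEE : T_EE) (hORD : T_ORD) : T_KO := by
  intro K _ _ ι S X T f hX hXT hT hrel
  obtain ⟨hadd, hmul, hder, hinj, -, -, -, -⟩ := hEE K
  classical
  induction S using Finset.induction_on generalizing f with
  | empty =>
    intro i hi
    simp at hi
  | insert i S hi ih =>
    have hX' : ∀ j ∈ S, X j ≠ 0 := fun j hj => hX j (Finset.mem_insert_of_mem hj)
    have hXT' : ∀ j ∈ S, PowerSeries.derivative K (X j) = ii K (T j) * X j :=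
      fun j hj => hXT j (Finset.mem_insert_of_mem hj)
    have hT' : ∀ j ∈ S, ∀ k ∈ S, j ≠ k → ∀ τ : K,
        T j - T k ≠ AddMonoidAlgebra.single 0 (Polynomial.C τ) :=
      fun j hj k hk => hT j (Finset.mem_insert_of_mem hj) k (Finset.mem_insert_of_mem hk)
    have ih' := fun g => ih (f := g) hX' hXT' hT'
    -- the differentiated relation
    have hder1 : ∑ j ∈ insert i S, ii K (DD (f j) + T j * f j) * X j = 0 := by
      have h1 := congrArg (PowerSeries.derivative K) hrel
      rw [map_sum, map_zero] at h1
      rw [← h1]
      refine Finset.sum_congr rfl fun j hj => ?_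
      rw [Derivation.leibniz, hXT j hj, hder, map_add, map_mul, smul_eq_mul, smul_eq_mul]
      ring
    set g : ι → EE K := fun j => f i * (DD (f j) + T j * f j) - (DD (f i) + T i * f i) * f j
      with hg
    have hgrel : ∑ j ∈ insert i S, ii K (g j) * X j = 0 := by
      have h2 : ∑ j ∈ insert i S, ii K (g j) * X j =
          ii K (f i) * (∑ j ∈ insert i S, ii K (DD (f j) + T j * f j) * X j) -
          ii K (DD (f i) + T i * f i) * (∑ j ∈ insert i S, ii K (f j) * X j) := by
        rw [Finset.mul_sum, Finset.mul_sum, ← Finset.sum_sub_distrib]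
        refine Finset.sum_congr rfl fun j _ => ?_
        rw [hg]
        simp only [map_sub, map_mul]
        ring
      rw [h2, hder1, hrel, mul_zero, mul_zero, sub_zero]
    rw [Finset.sum_insert hi] at hgrel
    have hgi : g i = 0 := by
      rw [hg]
      ring
    rw [hgi, map_zero, zero_mul, zero_add] at hgrel
    have hg0 := ih' g hgrel
    by_cases hfi : f i = 0
    · rw [Finset.sum_insert hi, hfi, map_zero, zero_mul, zero_add] at hrel
      have h3 := ih' f hrel
      intro j hj
      rcases Finset.mem_insert.1 hj with rfl | hj
      · exact hfi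
      · exact h3 j hj
    · have h4 : ∀ j ∈ S, f j = 0 := by
        intro j hj
        by_contra hfj
        have hji : j ≠ i := fun h => hi (h ▸ hj)
        obtain ⟨τ, hτ⟩ := hORD K (f j) (f i) (T j - T i) hfj hfi (by
          have := hg0 j hj
          rw [hg] at this
          simp only at this
          rw [← this]
          ring)
        exact hT j (Finset.mem_insert_of_mem hj) i (Finset.mem_insert_self i S) hji τ hτ
      exfalso
      rw [Finset.sum_insert hi, Finset.sum_eq_zero (fun j hj => by
        rw [h4 j hj, map_zero, zero_mul]), add_zero] at hrel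
      rcases mul_eq_zero.1 hrel with h5 | h5
      · exact hfi (hinj (by rw [h5, map_zero]))
      · exact hX i (Finset.mem_insert_self i S) h5

end Pool.Agent.H95.ZW
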