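import Pool.Agent.H95.ZW.LOW

open Filter Topology MvPolynomial

namespace Pool.Agent.H95.ZW

open Pool.Agent.H16.ZW
open Pool.Agent.H12.ZD (v emb v_nonneg v_zero v_one v_neg v_mul v_pow v_inv v_add_le v_sub_le
  v_add_le' v_sub_le' v_eq_of_sub_lt v_self v_eq_zero v_pos v_sub_comm v_add_lt v_sub_lt)

theorem norm_em (p : Nat.Primes) (x : Qb) : ‖em p x‖ = v p x :=
  PadicComplex.norm_extends (p : ℕ) (emb p x)

theorem geo_add {N : ℕ} (A : Matrix (Fin N) (Fin N) ℤ) (a b : ℕ) :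
    geo A (a + b) = geo A a + A ^ a * geo A b := by
  unfold geo
  rw [Finset.sum_range_add, Finset.mul_sum]
  congr 1
  exact Finset.sum_congr rfl fun i _ => pow_add A a i

theorem geo_one {N : ℕ} (A : Matrix (Fin N) (Fin N) ℤ) : geo A 1 = 1 := by
  unfold geo
  rw [Finset.sum_range_one, pow_zero]

theorem geo_mul {N : ℕ} (A : Matrix (Fin N) (Fin N) ℤ) (k K : ℕ) :
    geo A (k * K) = geo (A ^ k) K * geo A k := by
  induction K with
  | zero =>
    rw [mul_zero]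
    simp [geo]
  | succ K ih =>
    rw [Nat.mul_succ, geo_add, ih, geo_add (A ^ k) K 1, geo_one, mul_one, add_mul, ← pow_mul]

theorem geo_mul_sub {N : ℕ} (C : Matrix (Fin N) (Fin N) ℤ) (K : ℕ) :
    geo C K * (C - 1) = C ^ K - 1 := by
  unfold geo
  exact geom_sum_mul C K

theorem ort_add {N : ℕ} {w a b : Fin N → ℤ} (ha : Ort w a) (hb : Ort w b) : Ort w (a + b) := by
  unfold Ort at *
  simp only [Pi.add_apply, add_mul, Finset.sum_add_distrib]
  rw [ha, hb, add_zero]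

theorem ort_sum {N : ℕ} {w : Fin N → ℤ} (s : Finset ℕ) (a : ℕ → Fin N → ℤ)
    (ha : ∀ i ∈ s, Ort w (a i)) : Ort w (∑ i ∈ s, a i) := by
  induction s using Finset.induction_on with
  | empty => simp [Ort]
  | insert i s hi ih =>
    rw [Finset.sum_insert hi]
    exact ort_add (ha i (Finset.mem_insert_self i s))
      (ih fun j hj => ha j (Finset.mem_insert_of_mem hj))

section

variable {p : Nat.Primes} {N : ℕ} {w : Fin N → ℤ} {A : Matrix (Fin N) (Fin N) ℤ}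
  {c : Fin N → Qb} {δ : ℕ} {y : ℕ → Fin N → Qb}

theorem ort_pow (hCS : CS p w A c δ y) (γ : Fin N → ℤ) (hγ : Ort w γ) (n : ℕ) :
    Ort w (Matrix.vecMul γ (A ^ n)) := by
  induction n with
  | zero =>
    rw [pow_zero, Matrix.vecMul_one]
    exact hγ
  | succ n ih =>
    rw [pow_succ, ← Matrix.vecMul_vecMul]
    exact hCS.ort _ ih

theorem ort_geo (hCS : CS p w A c δ y) (γ : Fin N → ℤ) (hγ : Ort w γ) (k n : ℕ) :
    Ort w (Matrix.vecMul γ (geo (A ^ k) n)) := by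
  unfold geo
  rw [Matrix.vecMul_sum]
  refine ort_sum _ _ fun i _ => ?_
  rw [← pow_mul]
  exact ort_pow hCS γ hγ _

/-- the ratios -/
noncomputable def RR (A : Matrix (Fin N) (Fin N) ℤ) (c : Fin N → Qb) (y : ℕ → Fin N → Qb)
    (k n : ℕ) (γ : Fin N → ℤ) : Qb :=
  mon c (Matrix.vecMul γ (geo A k)) * mon (y n) (Matrix.vecMul γ (A ^ k - 1))

theorem RR_smul (hMON : T_MON) (k n a : ℕ) (γ : Fin N → ℤ) :
    RR A c y k n (a • γ) = RR A c y k n γ ^ a := by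
  obtain ⟨-, hsmul, -, -, -, -⟩ := hMON N
  unfold RR
  rw [Matrix.smul_vecMul, Matrix.smul_vecMul, (hsmul Qb c _ a).1, (hsmul Qb (y n) _ a).1,
    mul_pow]

theorem step_gen (hMON : T_MON) (hCS : CS p w A c δ y) (k K n : ℕ) (γ : Fin N → ℤ)
    (hγ : Ort w γ) :
    v p (mon (y (n + k * K)) γ -
      RR A c y k n (Matrix.vecMul γ (geo (A ^ k) K)) * mon (y n) γ) ≤
      (((p : ℕ) : ℝ)⁻¹) ^ (2 * δ ^ n) := by
  obtain ⟨hadd, -, -, -, -, -⟩ := hMON N
  have hy0 : ∀ i, y n i ≠ 0 := fun i h0 => by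
    have := hCS.unit n i
    rw [h0, v_zero] at this
    exact zero_ne_one this
  have h1 := hCS.step n (k * K) γ hγ
  have h2 : RR A c y k n (Matrix.vecMul γ (geo (A ^ k) K)) * mon (y n) γ =
      mon c (Matrix.vecMul γ (geo A (k * K))) *
        mon (y n) (Matrix.vecMul γ (A ^ (k * K))) := by
    unfold RR
    rw [Matrix.vecMul_vecMul, Matrix.vecMul_vecMul, ← geo_mul, geo_mul_sub, ← pow_mul, mul_assoc,
      ← hadd Qb (y n) _ _ hy0, Matrix.vecMul_sub, Matrix.vecMul_one, sub_add_cancel]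
  rw [h2]
  exact h1

theorem delta_pow (hδ : 2 ≤ δ) (n : ℕ) : n + 1 ≤ 2 * δ ^ n := by
  have h1 : n < 2 ^ n := Nat.lt_two_pow_self
  have h2 : 2 ^ n ≤ δ ^ n := Nat.pow_le_pow_left hδ n
  omega

theorem le_pow_self (p : Nat.Primes) (T : ℕ) : T ≤ (p : ℕ) ^ T :=
  (Nat.lt_pow_self p.2.one_lt).le

theorem succ_diff (hMON : T_MON) (hPW : T_PW) (hMV : T_MV) (hp2 : (p : ℕ) ≠ 2)
    (hCS : CS p w A c δ y) (k : ℕ) (hk : 1 ≤ k) (hA : DvM p (A ^ k - 1))
    (hR : ∀ n γ, Ort w γ → v p (RR A c y k n γ - 1) ≤ (((p : ℕ) : ℝ)⁻¹)) (γ : Fin N → ℤ)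
    (hγ : Ort w γ) (j T : ℕ) :
    v p (mon (y (k * ((p : ℕ) ^ (T + 1) + j))) γ - mon (y (k * ((p : ℕ) ^ T + j))) γ) ≤
      (((p : ℕ) : ℝ)⁻¹) ^ (T + 1) := by
  obtain ⟨-, -, -, -, -, hv⟩ := hMON N
  have hp1 : 1 < (p : ℕ) := p.2.one_lt
  have hpR : (1 : ℝ) < ((p : ℕ) : ℝ) := by exact_mod_cast hp1
  have hpR0 : (0 : ℝ) < ((p : ℕ) : ℝ) := by linarith
  set q : ℝ := ((p : ℕ) : ℝ)⁻¹ with hq
  have hq0 : 0 < q := inv_pos.2 hpR0
  have hq1 : q < 1 := inv_lt_one_of_one_lt₀ hpR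
  set n : ℕ := k * ((p : ℕ) ^ T + j) with hn
  set K : ℕ := (p : ℕ) ^ T * ((p : ℕ) - 1) with hK
  have hnK : k * ((p : ℕ) ^ (T + 1) + j) = n + k * K := by
    rw [hn, hK, ← Nat.mul_add]
    congr 1
    have h1 : (p : ℕ) ^ (T + 1) = (p : ℕ) ^ T + (p : ℕ) ^ T * ((p : ℕ) - 1) := by
      rw [pow_succ, Nat.mul_sub_one]
      have h2 : (p : ℕ) ^ T ≤ (p : ℕ) ^ T * (p : ℕ) := Nat.le_mul_of_pos_right _ (by omega)
      omega
    rw [h1]
    ring
  have hst := step_gen hMON hCS k K n γ hγ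
  rw [← hnK] at hst
  have hnT : T ≤ n := by
    calc T ≤ (p : ℕ) ^ T := le_pow_self p T
      _ ≤ (p : ℕ) ^ T + j := Nat.le_add_right _ _
      _ = 1 * ((p : ℕ) ^ T + j) := (one_mul _).symm
      _ ≤ k * ((p : ℕ) ^ T + j) := Nat.mul_le_mul_right _ hk
  have hst' : v p (mon (y (k * ((p : ℕ) ^ (T + 1) + j))) γ -
      RR A c y k n (Matrix.vecMul γ (geo (A ^ k) K)) * mon (y n) γ) ≤ q ^ (T + 1) := by
    refine hst.trans ?_
    refine pow_le_pow_of_le_one hq0.le hq1.le ?_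
    have := delta_pow hCS.two n
    omega
  -- the ratio is a power
  obtain ⟨V, hV⟩ := hMV (p : ℕ) N (A ^ k) p.2 hp2 hA
  set γ' : Fin N → ℤ := Matrix.vecMul γ (geo ((A ^ k) ^ (p : ℕ) ^ T) ((p : ℕ) - 1) * V T) with hγ'
  have hsm : Matrix.vecMul γ (geo (A ^ k) K) = ((p : ℕ) ^ T) • γ' := by
    rw [hK, geo_mul (A ^ k), hV.geo T, Matrix.mul_smul, Matrix.vecMul_smul, hγ']
    have h1 : ((((p : ℕ) : ℤ)) ^ T) = (((p : ℕ) ^ T : ℕ) : ℤ) := by push_cast; rfl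
    rw [h1, natCast_zsmul]
  have hort : Ort w γ' := by
    have h1 : Ort w (((p : ℕ) ^ T) • γ') := by
      rw [← hsm]
      exact ort_geo hCS γ hγ k K
    unfold Ort at *
    have h2 : ∑ i, (((p : ℕ) ^ T) • γ') i * w i = (((p : ℕ) ^ T : ℕ) : ℤ) * ∑ i, γ' i * w i := by
      rw [Finset.mul_sum]
      refine Finset.sum_congr rfl fun i _ => ?_
      simp only [Pi.smul_apply, nsmul_eq_mul]
      ring
    rw [h2] at h1
    rcases mul_eq_zero.1 h1 with h3 | h3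
    · have h4 : (p : ℕ) ^ T = 0 := by exact_mod_cast h3
      have h5 : 0 < (p : ℕ) ^ T := pow_pos (by omega) T
      omega
    · exact h3
  have hpw : v p (RR A c y k n (Matrix.vecMul γ (geo (A ^ k) K)) - 1) ≤ q ^ (T + 1) := by
    rw [hsm, RR_smul hMON, v_pow_sub_one hPW p hp2 _ (hR n γ' hort), v_p_pow, pow_succ]
    exact mul_le_mul_of_nonneg_left (hR n γ' hort) (by positivity)
  have hyn : v p (mon (y n) γ) = 1 := (hv p (y n) (y n) γ 1 le_rfl (hCS.unit n) (hCS.unit n)).1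
  have hdec : mon (y (k * ((p : ℕ) ^ (T + 1) + j))) γ - mon (y n) γ =
      (mon (y (k * ((p : ℕ) ^ (T + 1) + j))) γ -
        RR A c y k n (Matrix.vecMul γ (geo (A ^ k) K)) * mon (y n) γ) +
      (RR A c y k n (Matrix.vecMul γ (geo (A ^ k) K)) - 1) * mon (y n) γ := by ring
  rw [hdec]
  refine v_add_le' p hst' ?_
  rw [v_mul, hyn, mul_one]
  exact hpw

end

theorem lmb (hMON : T_MON) (hPW : T_PW) (hMV : T_MV) : T_LMB := by
  intro p N w A c δ y k hp2 hCS hk hA hR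
  have hMON' := hMON
  obtain ⟨hadd, -, -, -, -, hv⟩ := hMON N
  have hp1 : 1 < (p : ℕ) := p.2.one_lt
  have hpR : (1 : ℝ) < ((p : ℕ) : ℝ) := by exact_mod_cast hp1
  have hpR0 : (0 : ℝ) < ((p : ℕ) : ℝ) := by linarith
  set q : ℝ := ((p : ℕ) : ℝ)⁻¹ with hq
  have hq0 : 0 < q := inv_pos.2 hpR0
  have hq1 : q < 1 := inv_lt_one_of_one_lt₀ hpR
  have hy0 : ∀ n i, y n i ≠ 0 := fun n i h0 => by
    have := hCS.unit n i
    rw [h0, v_zero] at this
    exact zero_ne_one this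
  have hyn : ∀ n γ, v p (mon (y n) γ) = 1 := fun n γ =>
    (hv p (y n) (y n) γ 1 le_rfl (hCS.unit n) (hCS.unit n)).1
  have hnT : ∀ j T : ℕ, T ≤ k * ((p : ℕ) ^ T + j) := fun j T => by
    calc T ≤ (p : ℕ) ^ T := le_pow_self p T
      _ ≤ (p : ℕ) ^ T + j := Nat.le_add_right _ _
      _ = 1 * ((p : ℕ) ^ T + j) := (one_mul _).symm
      _ ≤ k * ((p : ℕ) ^ T + j) := Nat.mul_le_mul_right _ hk
  set χ : (Fin N → ℤ) → ℕ → ℂ_[(p : ℕ)] := fun γ j =>
    limUnder atTop (fun T : ℕ => em p (mon (y (k * ((p : ℕ) ^ T + j))) γ)) with hχ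
  have hlim : ∀ γ, Ort w γ → ∀ j, Tendsto
      (fun T : ℕ => em p (mon (y (k * ((p : ℕ) ^ T + j))) γ)) atTop (𝓝 (χ γ j)) := by
    intro γ hγ j
    refine CauchySeq.tendsto_limUnder ?_
    refine cauchySeq_of_le_geometric q q hq1 fun T => ?_
    rw [dist_comm, dist_eq_norm, ← map_sub, norm_em, ← pow_succ']
    exact succ_diff hMON' hPW hMV hp2 hCS k hk hA hR γ hγ j T
  have hnorm : ∀ γ, Ort w γ → ∀ j, ‖χ γ j‖ = 1 := by
    intro γ hγ j
    have h1 := (hlim γ hγ j).norm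
    have h2 : (fun T : ℕ => ‖em p (mon (y (k * ((p : ℕ) ^ T + j))) γ)‖) = fun _ => (1 : ℝ) := by
      funext T
      rw [norm_em, hyn]
    rw [h2] at h1
    exact (tendsto_nhds_unique h1 tendsto_const_nhds)
  refine ⟨χ, hlim, hnorm, ?_, ?_, ?_⟩
  · intro γ γ' hγ hγ' j
    have h1 := hlim (γ + γ') (ort_add hγ hγ') j
    have h2 := (hlim γ hγ j).mul (hlim γ' hγ' j)
    refine tendsto_nhds_unique h1 (h2.congr fun T => ?_)
    rw [← map_mul, ← hadd Qb _ _ _ (hy0 _)]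
  · intro γ hγ j
    have hγ' : Ort w (Matrix.vecMul γ (A ^ k)) := ort_pow hCS γ hγ k
    have h1 := hlim γ hγ (j + 1)
    have h2 := (hlim _ hγ' j).const_mul (em p (mon c (Matrix.vecMul γ (geo A k))))
    have h3 := h1.sub h2
    have h4 : Tendsto (fun T : ℕ => em p (mon (y (k * ((p : ℕ) ^ T + (j + 1)))) γ) -
        em p (mon c (Matrix.vecMul γ (geo A k))) *
          em p (mon (y (k * ((p : ℕ) ^ T + j))) (Matrix.vecMul γ (A ^ k)))) atTop (𝓝 0) := by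
      rw [tendsto_zero_iff_norm_tendsto_zero]
      refine squeeze_zero (fun T => norm_nonneg _) (g := fun T => q ^ T) (fun T => ?_)
        (tendsto_pow_atTop_nhds_zero_of_lt_one hq0.le hq1)
      rw [← map_mul, ← map_sub, norm_em]
      have h5 : k * ((p : ℕ) ^ T + (j + 1)) = k * ((p : ℕ) ^ T + j) + k := by ring
      rw [h5]
      refine (hCS.step _ k γ hγ).trans ?_
      refine pow_le_pow_of_le_one hq0.le hq1.le ?_
      have h6 := delta_pow hCS.two (k * ((p : ℕ) ^ T + j))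
      have h7 := hnT j T
      omega
    exact sub_eq_zero.1 (tendsto_nhds_unique h3 h4)
  · intro γ hγ
    have h0 : χ γ 0 ≠ 0 := by
      intro h0
      have := hnorm γ hγ 0
      rw [h0, norm_zero] at this
      exact zero_ne_one this
    have h1 := (((hlim γ hγ 1).div (hlim γ hγ 0) h0).sub_const 1).norm
    refine le_of_tendsto h1 (Eventually.of_forall fun T => ?_)
    set n : ℕ := k * ((p : ℕ) ^ T + 0) with hn
    have h5 : k * ((p : ℕ) ^ T + 1) = n + k * 1 := by rw [hn]; ring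
    have h6 : em p (mon (y (k * ((p : ℕ) ^ T + 1))) γ) / em p (mon (y n) γ) - 1 =
        em p (mon (y (k * ((p : ℕ) ^ T + 1))) γ / mon (y n) γ - 1) := by
      rw [map_sub, map_div₀, map_one]
    change ‖em p (mon (y (k * ((p : ℕ) ^ T + 1))) γ) / em p (mon (y n) γ) - 1‖ ≤ q
    rw [h6, norm_em, h5]
    refine v_close_div p _ _ (hyn n γ) _ ?_
    have h7 := step_gen hMON' hCS k 1 n γ hγ
    rw [geo_one, Matrix.vecMul_one] at h7
    have h8 : mon (y (n + k * 1)) γ - mon (y n) γ =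
        (mon (y (n + k * 1)) γ - RR A c y k n γ * mon (y n) γ) +
          (RR A c y k n γ - 1) * mon (y n) γ := by ring
    rw [h8]
    refine v_add_le' p (h7.trans ?_) ?_
    · have h9 : q ^ (2 * δ ^ n) ≤ q ^ 1 := by
        refine pow_le_pow_of_le_one hq0.le hq1.le ?_
        have := delta_pow hCS.two n
        omega
      rw [pow_one] at h9
      exact h9
    · rw [v_mul, hyn, mul_one]
      exact hR n γ hγ

end Pool.Agent.H95.ZW
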