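import Pool.Agent.H16.ZW.Targets

open Filter Topology MvPolynomial

namespace Pool.Agent.H95.ZW

open Pool.Agent.H16.ZW
open Pool.Agent.H12.ZD (v emb v_nonneg v_zero v_one v_neg v_mul v_pow v_inv v_add_le v_sub_le
  v_add_le' v_sub_le' v_eq_of_sub_lt v_self v_eq_zero v_pos v_sub_comm v_add_lt v_sub_lt)

theorem pk_alg (p : Nat.Primes) (hp : (p : ℕ) ≠ 2) : PK (p : ℕ) (PadicAlgCl p) where
  prime := p.2
  odd := hp
  norm_p := by
    have h := v_self p
    rw [v, map_natCast] at h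
    exact h

theorem v_pow_sub_one (hPW : T_PW) (p : Nat.Primes) (hp : (p : ℕ) ≠ 2) (x : Qb)
    (hx : v p (x - 1) ≤ ((p : ℕ) : ℝ)⁻¹) (n : ℕ) :
    v p (x ^ n - 1) = v p (n : Qb) * v p (x - 1) := by
  have h1 := (hPW p (PadicAlgCl p) (pk_alg p hp)).2.2 (emb p x) (by
    have : emb p x - 1 = emb p (x - 1) := by rw [map_sub, map_one]
    rw [this]
    exact hx) n
  have h2 : emb p x ^ n - 1 = emb p (x ^ n - 1) := by rw [map_sub, map_pow, map_one]
  have h3 : emb p x - 1 = emb p (x - 1) := by rw [map_sub, map_one]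
  have h4 : (n : PadicAlgCl p) = emb p (n : Qb) := by rw [map_natCast]
  rw [h2, h3, h4] at h1
  exact h1

theorem v_p_pow (p : Nat.Primes) (j : ℕ) :
    v p (((p : ℕ) ^ j : ℕ) : Qb) = (((p : ℕ) : ℝ)⁻¹) ^ j := by
  rw [Nat.cast_pow, v_pow, v_self]

theorem low_exp (p : ℕ) (hp : 1 < p) (l D i j : ℕ) (hl : l.Prime) (hN : i + 1 < l)
    (hD : D < l) (hD1 : 1 ≤ D) (s : ℝ) (hs : s ^ l = ((p : ℝ)⁻¹) ^ (l + (i + 1))) (k : ℤ)
    (h : ((((p : ℝ)⁻¹) ^ j) * s) ^ D = (p : ℝ) ^ k) : False := by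
  have hp0 : (p : ℝ) ≠ 0 := by
    have : (0 : ℝ) < p := by exact_mod_cast (by omega : 0 < p)
    exact this.ne'
  have h1 : (((((p : ℝ)⁻¹) ^ j) * s) ^ D) ^ l = ((p : ℝ) ^ k) ^ l := by rw [h]
  have h2 : (((((p : ℝ)⁻¹) ^ j) * s) ^ D) ^ l =
      ((p : ℝ)⁻¹) ^ (j * D * l + (l + (i + 1)) * D) := by
    have : (((((p : ℝ)⁻¹) ^ j) * s) ^ D) ^ l = (((((p : ℝ)⁻¹) ^ j) ^ D) ^ l) * (s ^ l) ^ D := by
      rw [mul_pow, mul_pow]
      congr 1
      rw [← pow_mul, ← pow_mul, mul_comm]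
    rw [this, hs, ← pow_mul, ← pow_mul, ← pow_mul, ← pow_add, mul_assoc j D l]
  rw [h2] at h1
  have h3 : ((p : ℝ)⁻¹) ^ (j * D * l + (l + (i + 1)) * D) =
      (p : ℝ) ^ (-((j * D * l + (l + (i + 1)) * D : ℕ) : ℤ)) := by
    rw [zpow_neg, zpow_natCast, inv_pow]
  have h4 : ((p : ℝ) ^ k) ^ l = (p : ℝ) ^ (k * (l : ℤ)) := by
    rw [zpow_mul, zpow_natCast]
  rw [h3, h4] at h1
  have h5 := zpow_right_injective₀ (a := (p : ℝ)) (by positivity) (by
    intro h6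
    have : (p : ℝ) = ((1 : ℕ) : ℝ) := by rw [h6, Nat.cast_one]
    have := Nat.cast_injective this
    omega) h1
  have h6 : (l : ℤ) ∣ (((i + 1) * D : ℕ) : ℤ) := by
    refine ⟨-k - j * D - D, ?_⟩
    push_cast at h5 ⊢
    linear_combination -h5
  have h7 : l ∣ (i + 1) * D := by exact_mod_cast h6
  rcases (hl.dvd_mul).1 h7 with h8 | h8
  · have := Nat.le_of_dvd (by omega) h8
    omega
  · have := Nat.le_of_dvd (by omega) h8
    omega

theorem v_close_div (p : Nat.Primes) (a b : Qb) (hb : v p b = 1) (ε : ℝ)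
    (h : v p (a - b) ≤ ε) : v p (a / b - 1) ≤ ε := by
  have hb0 : b ≠ 0 := by
    intro h0
    rw [h0, v_zero] at hb
    exact zero_ne_one hb
  have h1 : a / b - 1 = (a - b) * b⁻¹ := by
    field_simp
  rw [h1, v_mul, v_inv, hb, inv_one, mul_one]
  exact h

theorem low (hMON : T_MON) (hPW : T_PW) (hBET : T_BET) : T_LOW := by
  intro p N l D π w A c δ y ξ L r hp2 hl hNl hDl hD1 hπ hVG hCS hIni n hn γ hγ hγp j η
  obtain ⟨hadd, hsmul, hmul, -, -, hv⟩ := hMON N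
  set b : Fin N → Qb := fun i : Fin N => 1 + ((p : ℕ) : Qb) * π ^ ((i : ℕ) + 1) with hb
  have hp1 : 1 < (p : ℕ) := p.2.one_lt
  have hpR : (1 : ℝ) < ((p : ℕ) : ℝ) := by exact_mod_cast hp1
  have hpR0 : (0 : ℝ) < ((p : ℕ) : ℝ) := by linarith
  set q : ℝ := ((p : ℕ) : ℝ)⁻¹ with hq
  have hq0 : 0 < q := inv_pos.2 hpR0
  have hq1 : q < 1 := inv_lt_one_of_one_lt₀ hpR
  -- units
  have hc0 : ∀ i, c i ≠ 0 := fun i h0 => by
    have := hCS.c1 i
    rw [h0, v_zero] at this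
    exact zero_ne_one this
  have hξ1 : ∀ i, v p (ξ i) = 1 := by
    intro i
    have h1 := congrArg (v p) (hIni.root i)
    rw [v_pow, v_one] at h1
    exact (pow_eq_one_iff_of_nonneg (v_nonneg p _) (by have := hIni.L1; omega)).1 h1
  have hb1 : ∀ i, v p (b i) = 1 := by
    intro i
    have h1 : v p (b i - 1) < v p 1 := by
      rw [v_one]
      exact (hIni.b1 i).trans_lt hq1
    have := v_eq_of_sub_lt p h1
    rw [this, v_one]
  have hξb1 : ∀ i, v p (ξ i * b i) = 1 := fun i => by rw [v_mul, hξ1, hb1, one_mul]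
  -- the vector γ'
  set γ' : Fin N → ℤ := Matrix.vecMul γ (A ^ n) with hγ'
  have hγ'p : ¬ Dv (p : ℕ) γ' := by
    intro h1
    apply hγp
    intro i
    have h2 : γ' i - γ i = Matrix.vecMul γ (A ^ n - 1) i := by
      rw [Matrix.vecMul_sub, Matrix.vecMul_one]
      rfl
    have h3 : ((p : ℕ) : ℤ) ∣ Matrix.vecMul γ (A ^ n - 1) i := by
      simp only [Matrix.vecMul, dotProduct]
      exact Finset.dvd_sum fun k _ => Dvd.dvd.mul_left (hn k i) _
    have h4 : γ i = γ' i - Matrix.vecMul γ (A ^ n - 1) i := by rw [← h2]; ring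
    rw [h4]
    exact dvd_sub (h1 i) h3
  have hLγ'p : ¬ Dv (p : ℕ) (L • γ') := by
    intro h1
    apply hγ'p
    intro i
    have h2 := h1 i
    simp only [Pi.smul_apply, nsmul_eq_mul] at h2
    have h3 : Prime ((p : ℕ) : ℤ) := Nat.prime_iff_prime_int.1 p.2
    rcases h3.dvd_or_dvd h2 with h4 | h4
    · exact absurd (by exact_mod_cast h4) hIni.pL
    · exact h4
  -- the basic approximation
  set m : Qb := mon c (Matrix.vecMul γ (geo A n)) with hm
  have hm1 : v p m = 1 := (hv p c c _ 1 le_rfl hCS.c1 hCS.c1).1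
  have hm0 : m ≠ 0 := fun h0 => by rw [h0, v_zero] at hm1; exact zero_ne_one hm1
  have hst : v p (mon (y n) γ - m * mon (y 0) γ') ≤ q ^ 2 := by
    have h1 := hCS.step 0 n γ hγ
    rw [zero_add, pow_zero, mul_one] at h1
    exact h1
  have hq2 : q ^ 2 ≤ 1 := pow_le_one₀ hq0.le hq1.le
  have hy0 : v p (mon (y 0) γ' - mon (fun i => ξ i * b i) γ') ≤ q ^ 2 :=
    (hv p (y 0) (fun i => ξ i * b i) γ' (q ^ 2) hq2 (hCS.unit 0) hξb1).2.2 hIni.y0 (by positivity)
  have hξb : mon (fun i => ξ i * b i) γ' = mon ξ γ' * mon b γ' := hmul Qb ξ b γ'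
  have hξm1 : v p (mon ξ γ') = 1 := (hv p ξ ξ γ' 1 le_rfl hξ1 hξ1).1
  have hbm1 : v p (mon b γ') = 1 := (hv p b b γ' 1 le_rfl hb1 hb1).1
  set u : Qb := m * (mon ξ γ' * mon b γ') with hu
  have hu1 : v p u = 1 := by rw [hu, v_mul, v_mul, hm1, hξm1, hbm1]; ring
  have hu0 : u ≠ 0 := fun h0 => by rw [h0, v_zero] at hu1; exact zero_ne_one hu1
  have hyu : v p (mon (y n) γ - u) ≤ q ^ 2 := by
    have h1 : mon (y n) γ - u = (mon (y n) γ - m * mon (y 0) γ') +
        m * (mon (y 0) γ' - mon (fun i => ξ i * b i) γ') := by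
      rw [hu, hξb]
      ring
    rw [h1]
    refine v_add_le' p hst ?_
    rw [v_mul, hm1, one_mul]
    exact hy0
  set g : Qb := mon (y n) γ / u with hg
  have hg1 : v p (g - 1) ≤ q ^ 2 := v_close_div p _ _ hu1 _ hyu
  have hgu : mon (y n) γ = u * g := by
    rw [hg]
    field_simp
  have hqq : q ^ 2 ≤ q := by nlinarith
  have hgL : v p (g ^ L - 1) ≤ q ^ 2 := by
    rw [v_pow_sub_one hPW p hp2 g (hg1.trans hqq) L]
    have h1 : v p (L : Qb) ≤ 1 := Pool.Agent.H12.ZD.v_natCast_le p L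
    calc v p (L : Qb) * v p (g - 1) ≤ 1 * v p (g - 1) :=
          mul_le_mul_of_nonneg_right h1 (v_nonneg p _)
      _ = v p (g - 1) := one_mul _
      _ ≤ q ^ 2 := hg1
  obtain ⟨i, hi⟩ := hBET p N l π hp2 hl hNl hπ (L • γ') hLγ'p
  have hbL : mon b (L • γ') = mon b γ' ^ L := (hsmul Qb b γ' L).1
  have hξL : mon ξ γ' ^ L = 1 := by
    rw [← (hsmul Qb ξ γ' L).2]
    have : (fun i => ξ i ^ L) = fun _ : Fin N => (1 : Qb) := by
      funext i
      exact hIni.root i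
    rw [this]
    simp [mon]
  set s : ℝ := v p (mon b (L • γ') - 1) with hs
  have hs0 : 0 ≤ s := v_nonneg p _
  have hsl : s ^ l = q ^ (l + ((i : ℕ) + 1)) := hi
  have hil : (i : ℕ) + 1 < l := by
    have := i.2
    omega
  have hl0 : l ≠ 0 := hl.ne_zero
  have hs2 : q ^ 2 < s := by
    refine lt_of_pow_lt_pow_left₀ l hs0 ?_
    rw [hsl, ← pow_mul]
    exact pow_lt_pow_right_of_lt_one₀ hq0 hq1 (by omega)
  have hs1 : s < q := by
    refine lt_of_pow_lt_pow_left₀ l hq0.le ?_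
    rw [hsl]
    exact pow_lt_pow_right_of_lt_one₀ hq0 hq1 (by omega)
  -- the element x
  set x : Qb := mon b (L • γ') * g ^ L with hx
  have hbLv : v p (mon b (L • γ')) = 1 := (hv p b b _ 1 le_rfl hb1 hb1).1
  have hxs : v p (x - 1) = s := by
    have h1 : (x - 1) - (mon b (L • γ') - 1) = mon b (L • γ') * (g ^ L - 1) := by
      rw [hx]
      ring
    have h2 : v p ((x - 1) - (mon b (L • γ') - 1)) < v p (mon b (L • γ') - 1) := by
      rw [h1, v_mul, hbLv, one_mul]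
      exact hgL.trans_lt hs2
    exact v_eq_of_sub_lt p h2
  have hxq : v p (x - 1) ≤ q := by rw [hxs]; exact hs1.le
  have hZ : mon (y n) γ ^ L = m ^ L * x := by
    rw [hgu, hu, hx, hbL, mul_pow, mul_pow, mul_pow, hξL]
    ring
  have hxj : v p (x ^ (p : ℕ) ^ j - 1) = q ^ j * s := by
    rw [v_pow_sub_one hPW p hp2 x hxq, v_p_pow, hxs]
  have hval : mon (y n) ((p : ℕ) ^ j • γ) ^ L * mon c η - 1 =
      (m ^ (L * (p : ℕ) ^ j) * mon c η) * x ^ (p : ℕ) ^ j - 1 := by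
    rw [(hsmul Qb (y n) γ ((p : ℕ) ^ j)).1, ← pow_mul, mul_comm ((p : ℕ) ^ j) L, pow_mul, hZ,
      mul_pow, ← pow_mul]
    ring
  rw [hval]
  set z : Qb := m ^ (L * (p : ℕ) ^ j) * mon c η with hz
  have hx1 : v p x = 1 := by
    have h1 : v p (x - 1) < v p 1 := by
      rw [v_one]
      exact hxq.trans_lt hq1
    rw [v_eq_of_sub_lt p h1, v_one]
  have hfin : q ^ (j + 2) ≤ q ^ j * s := by
    rw [pow_add]
    exact mul_le_mul_of_nonneg_left hs2.le (by positivity)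
  refine hfin.trans ?_
  have hdec : z * x ^ (p : ℕ) ^ j - 1 = x ^ (p : ℕ) ^ j * (z - 1) + (x ^ (p : ℕ) ^ j - 1) := by
    ring
  by_cases hz1 : z = 1
  · rw [hz1, one_mul, hxj]
  · have hzmem : z - 1 ∈ IntermediateField.adjoin ℚ (Set.range c) := by
      have hcm : ∀ i, c i ∈ IntermediateField.adjoin ℚ (Set.range c) := fun i =>
        IntermediateField.subset_adjoin ℚ _ ⟨i, rfl⟩
      have hmm : ∀ a : Fin N → ℤ, mon c a ∈ IntermediateField.adjoin ℚ (Set.range c) := by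
        intro a
        exact prod_mem fun i _ => zpow_mem (hcm i) _
      exact sub_mem (mul_mem (pow_mem (hmm _) _) (hmm _)) (one_mem _)
    obtain ⟨k, hk⟩ := hVG (z - 1) hzmem (sub_ne_zero.2 hz1)
    have hne : v p (z - 1) ≠ q ^ j * s := by
      intro h1
      rw [h1] at hk
      exact low_exp p hp1 l D i j hl hil hDl hD1 s hsl k hk
    rcases lt_or_gt_of_ne hne with h1 | h1
    · -- the second term dominates
      have h2 : v p ((z * x ^ (p : ℕ) ^ j - 1) - (x ^ (p : ℕ) ^ j - 1)) <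
          v p (x ^ (p : ℕ) ^ j - 1) := by
        have h3 : (z * x ^ (p : ℕ) ^ j - 1) - (x ^ (p : ℕ) ^ j - 1) =
            x ^ (p : ℕ) ^ j * (z - 1) := by ring
        rw [h3, v_mul, v_pow, hx1, one_pow, one_mul, hxj]
        exact h1
      rw [v_eq_of_sub_lt p h2, hxj]
    · have h2 : v p ((z * x ^ (p : ℕ) ^ j - 1) - x ^ (p : ℕ) ^ j * (z - 1)) <
          v p (x ^ (p : ℕ) ^ j * (z - 1)) := by
        have h3 : (z * x ^ (p : ℕ) ^ j - 1) - x ^ (p : ℕ) ^ j * (z - 1) =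
            x ^ (p : ℕ) ^ j - 1 := by ring
        rw [h3, v_mul, v_pow, hx1, one_pow, one_mul, hxj]
        exact h1
      rw [v_eq_of_sub_lt p h2, v_mul, v_pow, hx1, one_pow, one_mul]
      exact h1.le

end Pool.Agent.H95.ZW
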